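import Mathlib
import Pool.Agent.Work.MP_af2786_co.Main

set_option autoImplicit false

namespace Pool.Agent.Results.MP_af2786_co.LimitOne

open Pool.Agent.Work.MP_af2786_co

/-- The codegree Turan density `π_{k-1}(K_{k+1}^k)` tends to `1` as `k` tends to infinity.
In particular it is not equal to `1/2` for every `k ≥ 2` (it exceeds `1/2` for all large `k`). -/
theorem result :
    Filter.Tendsto (fun k : ℕ => codegreeDensity (completeKGraph k (k + 1)))
      Filter.atTop (nhds 1) :=
  tendsto_one

end Pool.Agent.Results.MP_af2786_co.LimitOne
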